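import Pool.Agent.Work.MP_9079fe_co.KMain

namespace Pool.Agent.Results.MP_9079fe_co.LargeS

/-- The Erdős matching conjecture for every `k`, every `n ≥ k (s+1)` and all large `s`. -/
theorem result :
    ∀ k : ℕ, 1 ≤ k → ∃ s₀ : ℕ, ∀ n s : ℕ, s₀ ≤ s → k * (s + 1) ≤ n →
      IsGreatest
        {m : ℕ | ∃ F : Finset (Finset (Fin n)),
          (∀ A ∈ F, A.card = k) ∧
          (∀ M ⊆ F, (M : Set (Finset (Fin n))).PairwiseDisjoint id → M.card ≤ s) ∧
          F.card = m}
        (max (n.choose k - (n - s).choose k) ((k * (s + 1) - 1).choose k)) :=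
  fun k hk => Pool.Agent.Work.EMC.emc_large k hk

end Pool.Agent.Results.MP_9079fe_co.LargeS
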